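import Pool.Agent.Y221.AP.Eng2
import Pool.Agent.Y221.AP.Main

/-!
# Project EC (helper103), job EC-B3: functions with small logarithmic derivatives
-/

set_option autoImplicit false
set_option synthInstance.maxHeartbeats 400000
set_option maxHeartbeats 4000000

namespace Pool.Agent.Q184.EC

open Filter Metric Set Topology Pool.Agent.W602.NC Pool.Agent.W602.TL
  Pool.Agent.TH152.HY Pool.Agent.W601.PH Pool.Agent.H159R3.NV Pool.Agent.W603.BP
  Pool.Agent.Y221.AP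

variable {p : ℕ} {U : Fin (p + 1) → ℂ → ℂ} {u : Fin (p + 1) → MK} {e : MK}

/-- the elements which are bounded on calm discs -/
def GoodE (U : Fin (p + 1) → ℂ → ℂ) (A : ℕ) (x : MK) : Prop :=
  ∃ C, 0 ≤ C ∧ ∀ z ε B, 0 < ε → ε ≤ 1 → 1 ≤ B → CalmO U z ε B →
    Reg x z ∧ ‖Fn x z‖ ≤ C * (B / ε) ^ A

theorem one_le_Be {ε B : ℝ} (hε : 0 < ε) (hε1 : ε ≤ 1) (hB : 1 ≤ B) : 1 ≤ B / ε := by
  rw [one_le_div hε]; linarith

theorem goodE_mono {A A' : ℕ} {x : MK} (h : A ≤ A') (hx : GoodE U A x) : GoodE U A' x := by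
  obtain ⟨C, hC, hb⟩ := hx
  refine ⟨C, hC, fun z ε B hε hε1 hB hc => ⟨(hb z ε B hε hε1 hB hc).1, ?_⟩⟩
  refine (hb z ε B hε hε1 hB hc).2.trans ?_
  have h1 := one_le_Be hε hε1 hB
  exact mul_le_mul_of_nonneg_left (pow_le_pow_right₀ h1 h) hC

theorem goodE_add {A A' : ℕ} {x y : MK} (hx : GoodE U A x) (hy : GoodE U A' y) :
    GoodE U (A + A') (x + y) := by
  obtain ⟨C, hC, h⟩ := goodE_mono (Nat.le_add_right A A') hx
  obtain ⟨C', hC', h'⟩ := goodE_mono (Nat.le_add_left A' A) hy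
  refine ⟨C + C', by positivity, fun z ε B hε hε1 hB hc => ?_⟩
  obtain ⟨r1, b1⟩ := h z ε B hε hε1 hB hc
  obtain ⟨r2, b2⟩ := h' z ε B hε hε1 hB hc
  have hz : z ∈ Om := hc.mem hε
  refine ⟨r1.add r2 hz, ?_⟩
  have e : Fn (x + y) z = Fn x z + Fn y z := (Fn_add hz r1 r2).self_of_nhds
  rw [e, add_mul]
  exact (norm_add_le _ _).trans (add_le_add b1 b2)

theorem goodE_mul {A A' : ℕ} {x y : MK} (hx : GoodE U A x) (hy : GoodE U A' y) :
    GoodE U (A + A') (x * y) := by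
  obtain ⟨C, hC, h⟩ := hx
  obtain ⟨C', hC', h'⟩ := hy
  refine ⟨C * C', by positivity, fun z ε B hε hε1 hB hc => ?_⟩
  obtain ⟨r1, b1⟩ := h z ε B hε hε1 hB hc
  obtain ⟨r2, b2⟩ := h' z ε B hε hε1 hB hc
  have hz : z ∈ Om := hc.mem hε
  refine ⟨r1.mul r2 hz, ?_⟩
  have e : Fn (x * y) z = Fn x z * Fn y z := (Fn_mul hz r1 r2).self_of_nhds
  have h1 := one_le_Be hε hε1 hB
  rw [e, norm_mul, pow_add]
  calc _ ≤ _ := mul_le_mul b1 b2 (norm_nonneg _) (by positivity)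
    _ = _ := by ring

theorem goodE_const (c : ℂ) : GoodE U 0 (algebraMap ℂ MK c) := by
  refine ⟨‖c‖, norm_nonneg _, fun z ε B hε hε1 hB hc => ⟨reg_const c (hc.mem hε), ?_⟩⟩
  have e : Fn (algebraMap ℂ MK c) z = c := (Fn_const c (hc.mem hε)).self_of_nhds
  rw [e, pow_zero, mul_one]

theorem goodE_log (h : Nrm u e U) {i0 : Fin (p + 1)} (h0 : u i0 = 1) (j : Fin (p + 1)) :
    GoodE U 1 (MDer (u j) / u j) := by
  refine ⟨1, zero_le_one, fun z ε B hε hε1 hB hcO => ?_⟩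
  have hc := hcO.1
  have hzz : z ∈ closedBall z ε := mem_closedBall_self hε.le
  have hzE : z ∈ Ext 2 := hcO.2 hzz
  have hzO : z ∈ Om := sub_Om hzE
  have hval : ∀ w ∈ closedBall z ε, Reg (u j) w ∧ Fn (u j) w = U j w / U i0 w := by
    intro w hw
    have := h.val (i := j) (hcO.2 hw) (hc.1 i0 w hw)
    rwa [h0, div_one] at this
  obtain ⟨r, hv⟩ := hval z hzz
  have hne : Fn (u j) z ≠ 0 := by
    rw [hv]
    exact div_ne_zero (hc.1 j z hzz) (hc.1 i0 z hzz)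
  have rinv := r.inv hne hzO
  have rd : Reg (MD (u j)) z := r.MD hzO
  rw [MDer_apply, div_eq_mul_inv]
  refine ⟨rd.mul rinv hzO, ?_⟩
  have e1 : Fn (MD (u j) * (u j)⁻¹) z = Fn (MD (u j)) z * Fn (u j)⁻¹ z :=
    (Fn_mul hzO rd rinv).self_of_nhds
  have e2 : Fn (u j)⁻¹ z = (Fn (u j) z)⁻¹ := (Fn_inv hzO r hne).self_of_nhds
  have e3 : Fn (MD (u j)) z = deriv (Fn (u j)) z := (Fn_MD hzO r).self_of_nhds
  have hd : DiffContOnCl ℂ (Fn (u j)) (ball z ε) := by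
    refine DifferentiableOn.diffContOnCl_ball (U := closedBall z ε) ?_ subset_rfl
    intro w hw
    exact (hval w hw).1.differentiableAt.differentiableWithinAt
  have h6 := Complex.norm_deriv_le_of_forall_mem_sphere_norm_le (C := B * ‖Fn (u j) z‖) hε hd
    (fun w hw => by
      have hw' := sphere_subset_closedBall hw
      rw [(hval w hw').2, hv]
      exact hc.2 i0 j w hw')
  rw [e1, e2, e3, norm_mul, norm_inv, pow_one, one_mul]
  have hp : 0 < ‖Fn (u j) z‖ := norm_pos_iff.2 hne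
  calc ‖deriv (Fn (u j)) z‖ * ‖Fn (u j) z‖⁻¹ ≤ (B * ‖Fn (u j) z‖ / ε) * ‖Fn (u j) z‖⁻¹ := by gcongr
    _ = B / ε := by field_simp

theorem goodE_adj {S : Set MK} (hS : ∀ s ∈ S, ∃ A, GoodE U A s) {x : MK}
    (hx : x ∈ Algebra.adjoin ℂ S) : ∃ A, GoodE U A x := by
  induction hx using Algebra.adjoin_induction with
  | mem x hx => exact hS x hx
  | algebraMap c => exact ⟨0, goodE_const c⟩
  | add x y _ _ hx hy =>
    obtain ⟨A, hA⟩ := hx
    obtain ⟨A', hA'⟩ := hy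
    exact ⟨_, goodE_add hA hA'⟩
  | mul x y _ _ hx hy =>
    obtain ⟨A, hA⟩ := hx
    obtain ⟨A', hA'⟩ := hy
    exact ⟨_, goodE_mul hA hA'⟩

/-- bounds for the roots of monic polynomials -/
theorem root_bdC {d : ℕ} {a : ℕ → ℂ} {y : ℂ} (h : ∑ k ∈ Finset.range d, a k * y ^ k + y ^ d = 0) :
    ‖y‖ ≤ 1 + ∑ k ∈ Finset.range d, ‖a k‖ := by
  have hs : 0 ≤ ∑ k ∈ Finset.range d, ‖a k‖ := Finset.sum_nonneg fun _ _ => norm_nonneg _
  by_cases hy : ‖y‖ ≤ 1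
  · linarith
  push Not at hy
  rcases d with _ | d
  · simp at h
  have h1 : y ^ (d + 1) = -∑ k ∈ Finset.range (d + 1), a k * y ^ k := by linear_combination h
  have h2 : ‖y‖ ^ (d + 1) ≤ (∑ k ∈ Finset.range (d + 1), ‖a k‖) * ‖y‖ ^ d := by
    rw [← norm_pow, h1, norm_neg, Finset.sum_mul]
    refine (norm_sum_le _ _).trans (Finset.sum_le_sum fun k hk => ?_)
    rw [norm_mul, norm_pow]
    have h3 : k ≤ d := Nat.lt_succ_iff.1 (Finset.mem_range.1 hk)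
    exact mul_le_mul_of_nonneg_left (pow_le_pow_right₀ hy.le h3) (norm_nonneg _)
  have h3 : 0 < ‖y‖ ^ d := by positivity
  rw [pow_succ] at h2
  have h4 : ‖y‖ ≤ ∑ k ∈ Finset.range (d + 1), ‖a k‖ := by
    have h5 : ‖y‖ * ‖y‖ ^ d ≤ (∑ k ∈ Finset.range (d + 1), ‖a k‖) * ‖y‖ ^ d := by linarith
    exact le_of_mul_le_mul_right h5 h3
  linarith

/-- bounds for the values of roots of monic polynomials -/
theorem root_at {d : ℕ} {a : ℕ → MK} {x : MK} (h : ∑ k ∈ Finset.range d, a k * x ^ k + x ^ d = 0)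
    {z : ℂ} (hz : z ∈ Om) (hx : Reg x z) (ha : ∀ k, Reg (a k) z) :
    ‖Fn x z‖ ≤ 1 + ∑ k ∈ Finset.range d, ‖Fn (a k) z‖ := by
  have h4 : ∑ k ∈ Finset.range d, (⟨a k, ha k⟩ : Oz ⟨z, hz⟩) * (⟨x, hx⟩ : Oz ⟨z, hz⟩) ^ k +
      (⟨x, hx⟩ : Oz ⟨z, hz⟩) ^ d = 0 := by
    apply Subtype.ext
    push_cast
    exact h
  have h5 := congrArg (evO ⟨z, hz⟩) h4
  rw [map_add, map_sum, map_pow, map_zero] at h5
  simp only [map_mul, map_pow, evO_apply] at h5
  exact root_bdC h5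

theorem goodE_int {S : Set MK} (hS : ∀ s ∈ S, ∃ A, GoodE U A s) {x : MK}
    (hx : ∀ z ∈ Om, Reg x z) (hi : IsIntegral (Algebra.adjoin ℂ S) x) : ∃ A, GoodE U A x := by
  obtain ⟨q, hq, hqx⟩ := hi
  have hrel : ∑ k ∈ Finset.range q.natDegree, (q.coeff k : MK) * x ^ k + x ^ q.natDegree = 0 := by
    rw [Polynomial.eval₂_eq_sum_range, Finset.sum_range_succ] at hqx
    have h1 : q.coeff q.natDegree = 1 := hq
    rw [h1, map_one, one_mul] at hqx
    exact hqx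
  choose A hA using fun k => goodE_adj hS (q.coeff k).2
  set d := q.natDegree with hd
  set A' := ∑ k ∈ Finset.range d, A k with hA'
  have h2 : ∀ k, ∃ C, 0 ≤ C ∧ ∀ z ε B, 0 < ε → ε ≤ 1 → 1 ≤ B → CalmO U z ε B →
      Reg (q.coeff k : MK) z ∧ (k ∈ Finset.range d → ‖Fn (q.coeff k : MK) z‖ ≤ C * (B / ε) ^ A') := by
    intro k
    by_cases hk : k ∈ Finset.range d
    · obtain ⟨C, hC, h⟩ := goodE_mono (A' := A') (Finset.single_le_sum (f := A) (fun _ _ => Nat.zero_le _) hk) (hA k)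
      exact ⟨C, hC, fun z ε B hε hε1 hB hc => ⟨(h z ε B hε hε1 hB hc).1, fun _ => (h z ε B hε hε1 hB hc).2⟩⟩
    · obtain ⟨C, hC, h⟩ := hA k
      exact ⟨C, hC, fun z ε B hε hε1 hB hc => ⟨(h z ε B hε hε1 hB hc).1, fun h' => absurd h' hk⟩⟩
  choose C hC hb using h2
  have hs : 0 ≤ ∑ k ∈ Finset.range d, C k := Finset.sum_nonneg fun k _ => hC k
  refine ⟨A', 1 + ∑ k ∈ Finset.range d, C k, by positivity, fun z ε B hε hε1 hB hc => ?_⟩
  have hzO : z ∈ Om := hc.mem hε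
  refine ⟨hx z hzO, ?_⟩
  refine (root_at hrel hzO (hx z hzO) (fun k => (hb k z ε B hε hε1 hB hc).1)).trans ?_
  have h1 : 1 ≤ (B / ε) ^ A' := one_le_pow₀ (one_le_Be hε hε1 hB)
  rw [add_mul, one_mul, Finset.sum_mul]
  exact add_le_add h1 (Finset.sum_le_sum fun k hk => (hb k z ε B hε hε1 hB hc).2 hk)

theorem ana (N : ℕ) (u : Fin (N + 1) → MK) (hu0 : u 0 = 1) (hu : ∀ i, u i ≠ 0) (F : MK) (hF : F ≠ 0)
    (hreg : ∀ i, ∀ z ∈ Om, Reg (F * u i) z)
    (hint : ∀ i, IsIntegral (Algebra.adjoin ℂ (Set.range fun j => MDer (u j) / u j)) (F * u i))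
    (i : Fin (N + 1)) : MInf (u i) := by
  obtain ⟨e, U, h⟩ := exists_nrm u hu0
  have hS : ∀ s ∈ Set.range fun j => MDer (u j) / u j, ∃ A, GoodE U A s := by
    rintro s ⟨j, rfl⟩
    exact ⟨1, goodE_log h hu0 j⟩
  choose A hA using fun i => goodE_int hS (hreg i) (hint i)
  set A' := ∑ i, A i with hA'
  have h2 : ∀ i, ∃ C, 0 ≤ C ∧ ∀ z ε B, 0 < ε → ε ≤ 1 → 1 ≤ B → CalmO U z ε B →
      Reg (F * u i) z ∧ ‖Fn (F * u i) z‖ ≤ C * (B / ε) ^ A' := by
    intro i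
    exact goodE_mono (A' := A') (Finset.single_le_sum (f := A) (fun _ _ => Nat.zero_le _)
      (Finset.mem_univ i)) (hA i)
  choose C hC hb using h2
  have hs : 0 ≤ ∑ k, C k := Finset.sum_nonneg fun k _ => hC k
  set P : MK := F / e with hP
  have hPne : P ≠ 0 := div_ne_zero hF h.ne
  have hPu : ∀ i, F * u i = P * (e * u i) := by
    intro i
    rw [hP]
    have := h.ne
    field_simp
  have hPreg : ∀ z ∈ Ext 2, Reg P z := by
    intro z hz
    obtain ⟨i, hi⟩ := h.nz z hz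
    have hzO := sub_Om hz
    have hi' : Fn (e * u i) z ≠ 0 := by rw [← h.eq]; exact hi
    have h3 : P = (F * u i) * (e * u i)⁻¹ := by
      rw [hPu i, mul_assoc, mul_inv_cancel₀ (mul_ne_zero h.ne (hu i)), mul_one]
    rw [h3]
    exact (hreg i z hzO).mul ((h.reg i z hz).inv hi' hzO) hzO
  have hPval : ∀ z ∈ Ext 2, ∀ i, Fn (F * u i) z = Fn P z * U i z := by
    intro z hz i
    rw [hPu i, h.eq i]
    exact (Fn_mul (sub_Om hz) (hPreg z hz) (h.reg i z hz)).self_of_nhds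
  have hexists : ∀ x : MK, x ≠ 0 → ∃ z ∈ Ext 2, Fn x z ≠ 0 := by
    intro x hx
    have h3 : (3 : ℂ) ∈ Ext 2 := by
      change (2 : ℝ) < ‖(3 : ℂ)‖
      norm_num
    have h1 := cod_ev (Fn_ne_codis hx) (sub_Om h3)
    have h2 : ∀ᶠ z in 𝓝[≠] (3 : ℂ), z ∈ Ext 2 :=
      nhdsWithin_le_nhds ((Ext_open 2).mem_nhds h3)
    obtain ⟨z, h3, h4⟩ := (h2.and h1).exists
    exact ⟨z, h3, h4⟩
  refine minf_of_quot h hu hu0 (fun j => ?_) i
  refine abstract_ext (U := U) two_pos (fun _ => 0) (κ := 1) (Nn := A') one_pos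
    (C1 := max 1 (∑ k, C k)) (le_max_left _ _) (fun i z hz => h.an i hz) ?_ (P := Fn P)
    (fun z hz => hPreg z hz) (hexists P hPne) ?_ ?_ j
  · intro i
    rw [h.eq]
    exact hexists _ (mul_ne_zero h.ne (hu i))
  · intro z hz a ha
    simp
  · intro z ε B hε hε1 hB hzb hc
    have hz : z ∈ Ext 2 := hzb (mem_closedBall_self hε.le)
    obtain ⟨i, hi⟩ := sup_attained U z
    rw [hi, pow_one, ← norm_mul, ← hPval z hz i]
    have h3 := (hb i z ε B hε hε1 hB ⟨hc, hzb⟩).2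
    have h4 : C i ≤ max 1 (∑ k, C k) :=
      (Finset.single_le_sum (f := C) (fun k _ => hC k) (Finset.mem_univ i)).trans (le_max_right _ _)
    have h5 : 0 ≤ (B / ε) ^ A' := by
      have := one_le_Be hε hε1 hB
      positivity
    simp only [pow_zero, Finset.prod_const_one, mul_one]
    exact h3.trans (mul_le_mul_of_nonneg_right h4 h5)

end Pool.Agent.Q184.EC
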