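import Pool.Agent.Q103.EC.Stm2
import Pool.Agent.Q184.EC.Ana

/-!
# Project EC (helper103), job EC-B3, in the form of the statement file
-/

set_option autoImplicit false

namespace Pool.Agent.Q184.EC

theorem t_ana : Pool.Agent.Q103.EC.S_ana := ana

end Pool.Agent.Q184.EC
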